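import Pool.Agent.Q278.DD3

set_option autoImplicit false

/-! The `[2dk+1]`-weighted truncated series modulo `Φ_n(q)³` and `Φ_n(q)⁴`. -/

namespace Pool.Agent.Results.MP_3c5a12_nt.Full

open Finset Polynomial Q278.Cyc Q278.Loc Q278.Unit Q278.Blk

/-- `[m] = (1 - q^m) / (1 - q)`, with `q = RatFunc.X`. -/
noncomputable def qint (m : ℕ) : RatFunc ℚ := (1 - RatFunc.X ^ m) / (1 - RatFunc.X)

/-- `(x; y)_k = (1 - x)(1 - x y) ⋯ (1 - x y^(k-1))`. -/
noncomputable def qp (x y : RatFunc ℚ) (k : ℕ) : RatFunc ℚ := ∏ l ∈ range k, (1 - x * y ^ l)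

/-- The sum `S_d(n) = ∑_{k<n} [2dk+1] ((q;q^d)_k / (q^d;q^d)_k)^d q^(d(d-3)k/2)`. -/
noncomputable def S (d n : ℕ) : RatFunc ℚ :=
  ∑ k ∈ range n, qint (2 * d * k + 1) *
    (qp RatFunc.X (RatFunc.X ^ d) k / qp (RatFunc.X ^ d) (RatFunc.X ^ d) k) ^ d *
    RatFunc.X ^ (d * (d - 3) * k / 2)

theorem S_eq {d n r : ℕ} (hd : d = 2 * r + 3) : (1 - q) * S d n =
    ∑ k ∈ range n, Q278.DD.X (q ^ (1 : ℤ)) (q ^ d) (q ^ n) r r k := by
  unfold S
  rw [mul_sum]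
  apply sum_congr rfl
  intro k _
  have h1 : (1 : RatFunc ℚ) - q ≠ 0 := by
    have := one_sub_q_ne one_pos
    rwa [pow_one] at this
  have e1 : d * (d - 3) * k / 2 = d * r * k := by
    have : d * (d - 3) * k = 2 * (d * r * k) := by
      rw [show d - 3 = 2 * r by omega]; ring
    rw [this, Nat.mul_div_cancel_left _ two_pos]
  have e2 : qp RatFunc.X (RatFunc.X ^ d) k / qp (RatFunc.X ^ d) (RatFunc.X ^ d) k =
      Q278.VKM.gk (q ^ (1 : ℤ)) (q ^ d) (q ^ n) k 0 := by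
    rw [Q278.DD.gk_zero]
    unfold qp
    rw [← prod_div_distrib]
    apply prod_congr rfl
    intro l _
    rw [zpow_one, pow_succ' _ l]
  have e3 : (1 - q) * qint (2 * d * k + 1) = 1 - q ^ (2 * d * k + 1) := by
    unfold qint
    exact mul_div_cancel₀ _ h1
  rw [e1, e2]
  unfold Q278.DD.X
  rw [← mul_assoc, ← mul_assoc, e3, hd, zpow_one]
  have e4 : (1 : RatFunc ℚ) - q ^ (2 * (2 * r + 3) * k + 1) = 1 - q * (q ^ (2 * r + 3)) ^ (2 * k) := by
    rw [← pow_mul, ← pow_succ']; congr 2; ring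
  have e5 : (RatFunc.X : RatFunc ℚ) ^ ((2 * r + 3) * r * k) = ((q ^ (2 * r + 3)) ^ r) ^ k := by
    rw [← pow_mul, ← pow_mul, mul_assoc]
  rw [e4, e5]
  ring

theorem of_mul {n j : ℕ} {η : ℂ} (hn : 1 < n) (hη : IsPrimitiveRoot η n) {x : RatFunc ℚ}
    (h : (1 - q) * x ∈ I (Reg η) (Φ n) j) : x ∈ I (Reg η) (Φ n) j := by
  have hU : U (Reg η) ((1 : RatFunc ℚ) - q) := by
    have := U_of_ev (one_sub_mem η 1) (one_sub_ne hη (k := 1) (by
      intro h; have := Nat.le_of_dvd one_pos h; omega))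
    rwa [pow_one] at this
  exact of_unit_mul hU.2.2 hU.2.1 h

/-- **Theorem.** Let `d ≥ 5` be odd and `n` a positive integer. If `n ≡ -1 (mod d)` then `S_d(n)`
is `0` modulo `Φ_n(q)³`. If `2n ≡ -1 (mod d)` then `S_d(n)` is `0` modulo `Φ_n(q)⁴`. That is, the
power of `Φ_n(q)` divides the numerator (in lowest terms) and is prime to the denominator. -/
theorem result : ∀ d n : ℕ, Odd d → 5 ≤ d → 1 ≤ n →
    (d ∣ n + 1 → cyclotomic n ℚ ^ 3 ∣ RatFunc.num (S d n) ∧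
      IsCoprime (RatFunc.denom (S d n)) (cyclotomic n ℚ ^ 3)) ∧
    (d ∣ 2 * n + 1 → cyclotomic n ℚ ^ 4 ∣ RatFunc.num (S d n) ∧
      IsCoprime (RatFunc.denom (S d n)) (cyclotomic n ℚ ^ 4)) := by
  intro d n hodd hd5 hn
  obtain ⟨w, hw⟩ := hodd
  obtain ⟨r, rfl⟩ : ∃ r, w = r + 1 := ⟨w - 1, by omega⟩
  have hd : d = 2 * r + 3 := by omega
  have hZ : 2 * (r : ℤ) = (d : ℤ) - 2 - 1 := by rw [hd]; push_cast; ring
  constructor
  · rintro ⟨M, hM⟩
    have hn1 : 1 < n := by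
      by_contra hc
      have h1 : n = 1 := by omega
      have h2 : d ∣ 2 := ⟨M, by rw [← hM, h1]⟩
      have := Nat.le_of_dvd two_pos h2
      omega
    have hη := Complex.isPrimitiveRoot_exp n (by omega : n ≠ 0)
    have h1 := Q278.DD.fin1 (Or.inl rfl) hn1 (by omega) hd hZ (M := M)
      (by exact_mod_cast congrArg (Nat.cast : ℕ → ℤ) hM) hη
    rw [← S_eq hd] at h1
    obtain ⟨h2, h3⟩ := num_dvd (by omega) hη (of_mul hn1 hη h1)
    exact ⟨h2, h3.pow_right⟩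
  · rintro ⟨M, hM⟩
    have hn1 : 1 < n := by
      by_contra hc
      have h1 : n = 1 := by omega
      have h2 : d ∣ 3 := ⟨M, by rw [← hM, h1]⟩
      have := Nat.le_of_dvd (by norm_num) h2
      omega
    have hη := Complex.isPrimitiveRoot_exp n (by omega : n ≠ 0)
    have h1 := Q278.DD.fin2 (Or.inl rfl) hn1 (by omega) hd hZ (M := M)
      (by exact_mod_cast congrArg (Nat.cast : ℕ → ℤ) hM) hη
    rw [← S_eq hd] at h1
    obtain ⟨h2, h3⟩ := num_dvd (by omega) hη (of_mul hn1 hη h1)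
    exact ⟨h2, h3.pow_right⟩

end Pool.Agent.Results.MP_3c5a12_nt.Full
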